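import Mathlib
import Pool.Agent.R62.ECC3

set_option autoImplicit false

/-!
For every finite nonempty graph `G` there is `p₀` such that for all `p ≥ p₀` the join `G ∨ K_p` is
enumeratively chromatic-choosable.
-/

namespace Pool.Agent.Results.MP_e82249_co.JoinLargeClique

/-- `P(G, m)`: the number of proper colourings of `G` with the colours `0, ..., m - 1`. -/
noncomputable def chromaticCount {V : Type} (G : SimpleGraph V) (m : ℕ) : ℕ :=
  Nat.card (G.Coloring (Fin m))

/-- `P(G, L)`: the number of proper colourings `f` of `G` with `f v ∈ L v` for every vertex `v`. -/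
noncomputable def listCount {V : Type} (G : SimpleGraph V) (L : V → Finset ℕ) : ℕ :=
  Nat.card {f : V → ℕ // (∀ v, f v ∈ L v) ∧ ∀ u v, G.Adj u v → f u ≠ f v}

/-- `P_ℓ(G, m)`, the list color function: the least value of `P(G, L)` over all `m`-assignments `L`. -/
noncomputable def listColorFunction {V : Type} (G : SimpleGraph V) (m : ℕ) : ℕ :=
  sInf {N : ℕ | ∃ L : V → Finset ℕ, (∀ v, (L v).card = m) ∧ N = listCount G L}

/-- `G` is enumeratively chromatic-choosable: `P_ℓ(G, m) = P(G, m)` for every `m ≥ χ(G)`. -/
def EnumChromaticChoosable {V : Type} (G : SimpleGraph V) : Prop :=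
  ∀ m : ℕ, G.chromaticNumber ≤ m → listColorFunction G m = chromaticCount G m

/-- The join `G ∨ H`: the disjoint union of `G` and `H` together with all edges between them. -/
def join {V W : Type} (G : SimpleGraph V) (H : SimpleGraph W) : SimpleGraph (V ⊕ W) :=
  (G ⊕g H) ⊔ completeBipartiteGraph V W

open Pool.Agent.R62 in
lemma listCount_eq {V : Type} [Fintype V] (G : SimpleGraph V) (L : V → Finset ℕ) :
    listCount G L = (ECC.cols G L).card := by
  rw [listCount]
  exact Nat.subtype_card _ (fun f => ECC.mem_cols)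

open Pool.Agent.R62 in
lemma chromaticCount_eq {V : Type} [Fintype V] (G : SimpleGraph V) (m : ℕ) :
    chromaticCount G m = ECC.chr G m := by
  classical
  rw [chromaticCount, ECC.chr, ← listCount_eq, listCount]
  refine Nat.card_congr ⟨fun c => ⟨fun v => (c v : ℕ), fun v => by simp, fun u v huv hh => ?_⟩,
    fun f => SimpleGraph.Coloring.mk (fun v => ⟨f.1 v, by simpa using f.2.1 v⟩) ?_, ?_, ?_⟩
  · exact c.valid huv (Fin.ext hh)
  · intro u v huv hh
    exact f.2.2 u v huv (congrArg Fin.val hh)
  · intro c; ext v; rfl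
  · intro f; rfl

open Pool.Agent.R62 in
theorem result (V : Type) [Fintype V] [Nonempty V] (G : SimpleGraph V) :
    ∃ p₀ : ℕ, ∀ p : ℕ, p₀ ≤ p → EnumChromaticChoosable (join G (⊤ : SimpleGraph (Fin p))) := by
  classical
  obtain ⟨p₀, hp₀⟩ := ECC.all_ineq G
  refine ⟨p₀, fun p hp m hm => ?_⟩
  rw [SimpleGraph.chromaticNumber_le_iff_colorable] at hm
  obtain ⟨c⟩ := hm
  -- the colours of the clique are distinct
  have hcinj : Function.Injective (fun w : Fin p => c (Sum.inr w)) := by
    intro a b hab
    by_contra hne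
    exact c.valid (show (join G (⊤ : SimpleGraph (Fin p))).Adj (Sum.inr a) (Sum.inr b) from
      (ECC.join_inr_inr G (⊤ : SimpleGraph (Fin p)) a b).2 hne) hab
  have hpm : p ≤ m := by
    simpa using Fintype.card_le_of_injective _ hcinj
  obtain ⟨s, rfl⟩ := Nat.exists_eq_add_of_le hpm
  -- `G` is `s`-colourable
  have hs : 1 ≤ ECC.chr G s := by
    let A : Finset (Fin (p + s)) := Finset.univ \ Finset.univ.image (fun w : Fin p => c (Sum.inr w))
    have hA : A.card = s := by
      rw [Finset.card_sdiff_of_subset (Finset.subset_univ _), Finset.card_image_of_injective _ hcinj]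
      simp
    have hmem : ∀ v : V, (c (Sum.inl v) : ℕ) ∈ A.image Fin.val := by
      intro v
      rw [Finset.mem_image]
      refine ⟨_, ?_, rfl⟩
      rw [Finset.mem_sdiff]
      refine ⟨Finset.mem_univ _, fun hmem => ?_⟩
      obtain ⟨w, _, hw⟩ := Finset.mem_image.1 hmem
      exact c.valid (ECC.join_inl_inr G (⊤ : SimpleGraph (Fin p)) v w) hw.symm
    have hAc : (A.image Fin.val).card = s := by
      rw [Finset.card_image_of_injective _ Fin.val_injective, hA]
    rw [← ECC.chr_eq G hAc]
    apply Finset.card_pos.2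
    refine ⟨fun v => (c (Sum.inl v) : ℕ), ECC.mem_cols.2 ⟨hmem, fun u v huv hh => ?_⟩⟩
    exact c.valid ((ECC.join_inl_inl G (⊤ : SimpleGraph (Fin p)) u v).2 huv) (Fin.ext hh)
  have hjoin : join G (⊤ : SimpleGraph (Fin p)) = ECC.join G (⊤ : SimpleGraph (Fin p)) := rfl
  have hconst : ∀ A : Finset ℕ, A.card = p + s →
      listCount (join G (⊤ : SimpleGraph (Fin p))) (fun _ => A) =
        (p + s).descFactorial p * ECC.chr G s := by
    intro A hA
    rw [listCount_eq, hjoin]
    have := ECC.const_count G s (Fin p) A (by simpa using hA)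
    simpa using this
  have hval : chromaticCount (join G (⊤ : SimpleGraph (Fin p))) (p + s) =
      (p + s).descFactorial p * ECC.chr G s := by
    rw [chromaticCount_eq, ECC.chr, ← listCount_eq]
    exact hconst _ (by simp)
  rw [hval, listColorFunction]
  apply le_antisymm
  · exact Nat.sInf_le ⟨fun _ => Finset.range (p + s), by simp, (hconst _ (by simp)).symm⟩
  · refine le_csInf ⟨_, fun _ => Finset.range (p + s), by simp, rfl⟩ ?_
    rintro N ⟨L, hL, rfl⟩
    rw [listCount_eq, hjoin]
    have := hp₀ (Fin p) (by simpa using hp) s hs L (by simpa using hL)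
    simpa using this

end Pool.Agent.Results.MP_e82249_co.JoinLargeClique
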